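import Pool.Agent.ConeOI.Main

/-!
The cone datum `f_⋆(ξ) = ‖ξ‖^(2s-1) e^(-‖ξ‖)` is not a maximizer of
`Φ_s(f) = (‖E_s f‖_p / ‖f‖_{L²(‖ξ‖^(-2s) dξ)})^p`, `p = 2(d+1)/(d-2s)`, for every `d ≥ 2` and
every `s` with `1/2 < s < d/2`, `s ≠ (d-1)/4`.
The proof: the perturbation `(1 + ε‖ξ‖²) f_⋆` changes the two norms at first order by different
amounts; both first variations are computed in closed form by integrations by parts.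
-/

set_option autoImplicit false
open MeasureTheory

namespace Pool.Agent.Results.MP_2c2498_an.OnlyIf

/-- For every `d ≥ 2`, every `1/2 < s < d/2` with `s ≠ (d-1)/4` and `p = 2(d+1)/(d-2s)`, there is
`g` with `∫ |g|² ‖ξ‖^(-2s) < ∞` (and absolutely convergent extension integral) such that
`‖E_s f_⋆‖_p^p ‖g‖^p < ‖E_s g‖_p^p ‖f_⋆‖^p`. -/
theorem result (d : ℕ) (hd : 2 ≤ d) (s : ℝ) (hs : 1 / 2 < s) (hs2 : s < (d : ℝ) / 2)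
    (hs3 : s ≠ ((d : ℝ) - 1) / 4) (p : ℝ) (hp : p = 2 * ((d : ℝ) + 1) / ((d : ℝ) - 2 * s)) :
    ∃ g : EuclideanSpace ℝ (Fin d) → ℂ,
      Integrable (fun ξ : EuclideanSpace ℝ (Fin d) => ((‖ξ‖ ^ (-2 * s) : ℝ) : ℂ) * g ξ) ∧
      (∫⁻ ξ : EuclideanSpace ℝ (Fin d), ENNReal.ofReal (‖g ξ‖ ^ 2 * ‖ξ‖ ^ (-2 * s))) < ⊤ ∧
      (∫⁻ z : ℝ × EuclideanSpace ℝ (Fin d),
              ‖∫ ξ : EuclideanSpace ℝ (Fin d),
                  Complex.exp (Complex.I * ((z.1 * ‖ξ‖ + inner ℝ z.2 ξ : ℝ) : ℂ))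
                    * ((‖ξ‖ ^ (-2 * s) : ℝ) : ℂ)
                    * (((‖ξ‖ ^ (2 * s - 1) * Real.exp (-‖ξ‖)) : ℝ) : ℂ)‖ₑ ^ p)
            * (∫⁻ ξ : EuclideanSpace ℝ (Fin d),
                ENNReal.ofReal (‖g ξ‖ ^ 2 * ‖ξ‖ ^ (-2 * s))) ^ (p / 2)
        < (∫⁻ z : ℝ × EuclideanSpace ℝ (Fin d),
              ‖∫ ξ : EuclideanSpace ℝ (Fin d),
                  Complex.exp (Complex.I * ((z.1 * ‖ξ‖ + inner ℝ z.2 ξ : ℝ) : ℂ))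
                    * ((‖ξ‖ ^ (-2 * s) : ℝ) : ℂ) * g ξ‖ₑ ^ p)
            * (∫⁻ ξ : EuclideanSpace ℝ (Fin d),
                ENNReal.ofReal ((‖ξ‖ ^ (2 * s - 1) * Real.exp (-‖ξ‖)) ^ 2 *
                  ‖ξ‖ ^ (-2 * s))) ^ (p / 2) :=
  Pool.Agent.Cone.only_if d hd s p hs hs2 hs3 hp

end Pool.Agent.Results.MP_2c2498_an.OnlyIf
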